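import Pool.Agent.Helper60.EV2.Exist

/-!
# EV4: windows of three parallel crossings

`r2`: two parallel strands with a negative and then a positive crossing may be pulled apart. `tri`: the skein identity of three consecutive parallel crossings.
-/

set_option autoImplicit false

namespace Pool.Agent.Helper85.EV4

open Polynomial Classical Pool.Agent.Helper85.Exp Pool.Agent.Helper60.EV2

variable {P : Type} {G : Sh P}

/-- The crossings of `p` and of the next passage `nxt p` are different, consecutive on both strands, and the strands change sides. -/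
structure Big (G : Sh P) (p : P) : Prop where
  opp : G.op p ≠ p
  nx : G.op (G.nxt p) = G.nxt (G.op p)
  side : G.lf (G.nxt p) ≠ G.lf p
  ne : G.nxt p ≠ G.op p

theorem Big.op {p : P} (h : Big G p) : Big G (G.op p) where
  opp := fun e => h.opp (by rw [G.op_op] at e; exact e.symm)
  nx := by rw [G.op_op, ← h.nx, G.op_op]
  side := by
    have h2 : G.op (G.nxt p) ≠ G.nxt p := by
      intro e
      rw [h.nx] at e
      exact h.opp (G.nxt.injective e)
    rw [← h.nx, G.lf_op _ h2, G.lf_op _ h.opp]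
    intro e
    apply h.side
    revert e
    cases G.lf (G.nxt p) <;> cases G.lf p <;> simp
  ne := by
    rw [G.op_op, ← h.nx]
    intro e
    apply h.ne
    rw [← e, G.op_op, e]

/-- both crossings smoothed -/
noncomputable def sm2 (D : Dg G) (p : P) : Dg G := (D.upd p .smooth).upd (G.nxt p) .smooth

theorem upd_op (D : Dg G) (p : P) (t : St) : D.upd (G.op p) t = D.upd p t := by
  ext j
  unfold Dg.upd
  simp only [G.op_op]
  rw [if_congr or_comm rfl rfl]

theorem sm2_op (D : Dg G) {p : P} (h : Big G p) : sm2 D (G.op p) = sm2 D p := by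
  unfold sm2
  rw [upd_op, ← h.nx, upd_op]

section r2

variable {p : P}

theorem Big.p_ne_y2 (h : Big G p) : p ≠ G.op (G.nxt p) := by
  intro e
  apply h.ne
  have := congrArg G.op e
  rw [G.op_op] at this
  exact this.symm

theorem Big.p_ne_y1 (h : Big G p) : p ≠ G.nxt p := fun e => h.side (congrArg G.lf e.symm)

theorem Big.op_ne_y2 (h : Big G p) : G.op p ≠ G.op (G.nxt p) := fun e => h.p_ne_y1 (op_inj G e)

theorem sm2_st (D : Dg G) (p j : P) : (sm2 D p).st j =
    if j = p ∨ j = G.op p ∨ j = G.nxt p ∨ j = G.op (G.nxt p) then .smooth else D.st j := by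
  unfold sm2 Dg.upd
  simp only
  by_cases h1 : j = G.nxt p ∨ j = G.op (G.nxt p)
  · rw [if_pos h1, if_pos (by tauto)]
  · rw [if_neg h1]
    by_cases h2 : j = p ∨ j = G.op p
    · rw [if_pos h2, if_pos (by tauto)]
    · rw [if_neg h2, if_neg (by tauto)]

/-- the smoothed travel of `sm2 D p` is the one of `D`, with the two passages after `p` exchanged -/
theorem tr_conj (h : Big G p) (D : Dg G) (S : Finset P) (h1 : D.st p ≠ .smooth) (h2 : D.st (G.nxt p) ≠ .smooth)
    (hS : ∀ j ∈ S, j ≠ p ∧ j ≠ G.op p ∧ j ≠ G.nxt p ∧ j ≠ G.op (G.nxt p)) (j : P) :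
    ((sm2 D p).sm S).tr (Equiv.swap (G.nxt p) (G.op (G.nxt p)) j) =
      Equiv.swap (G.nxt p) (G.op (G.nxt p)) ((D.sm S).tr j) := by
  have hy := h.op
  have n1 := h.p_ne_y1
  have n2 := h.p_ne_y2
  have n3 := h.op_ne_y2
  have n4 : G.op p ≠ G.nxt p := h.ne.symm
  have nS : ∀ i, (i = p ∨ i = G.op p ∨ i = G.nxt p ∨ i = G.op (G.nxt p)) → i ∉ S ∧ G.op i ∉ S := by
    rintro i hi
    constructor
    · intro hiS
      have := hS i hiS
      tauto
    · intro hiS
      have := hS _ hiS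
      rcases hi with rfl | rfl | rfl | rfl
      · exact this.2.1 rfl
      · exact this.1 (G.op_op _)
      · exact this.2.2.2 rfl
      · exact this.2.2.1 (G.op_op _)
  have st1 : ∀ i, (i = p ∨ i = G.op p ∨ i = G.nxt p ∨ i = G.op (G.nxt p)) → (D.sm S).st i ≠ .smooth := by
    intro i hi
    rw [sm_st_not D S i (nS i hi).1 (nS i hi).2]
    rcases hi with rfl | rfl | rfl | rfl
    · exact h1
    · rwa [D.st_op]
    · exact h2
    · rwa [D.st_op]
  have st2 : ∀ i, (i = p ∨ i = G.op p ∨ i = G.nxt p ∨ i = G.op (G.nxt p)) → ((sm2 D p).sm S).st i = .smooth := by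
    intro i hi
    rw [sm_st_not _ S i (nS i hi).1 (nS i hi).2, sm2_st, if_pos hi]
  have st3 : ∀ i, ¬ (i = p ∨ i = G.op p ∨ i = G.nxt p ∨ i = G.op (G.nxt p)) → ((sm2 D p).sm S).st i = (D.sm S).st i := by
    intro i hi
    by_cases hi2 : i ∈ S ∨ G.op i ∈ S
    · rw [sm_st_mem _ S i hi2, sm_st_mem _ S i hi2]
    · rw [not_or] at hi2
      rw [sm_st_not _ S i hi2.1 hi2.2, sm_st_not _ S i hi2.1 hi2.2, sm2_st, if_neg hi]
  have t1 : ∀ i, (i = p ∨ i = G.op p ∨ i = G.nxt p ∨ i = G.op (G.nxt p)) → (D.sm S).tr i = G.nxt i := by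
    intro i hi
    show G.nxt (if (D.sm S).st i = .smooth then G.op i else i) = _
    rw [if_neg (st1 i hi)]
  have t2 : ∀ i, (i = p ∨ i = G.op p ∨ i = G.nxt p ∨ i = G.op (G.nxt p)) → ((sm2 D p).sm S).tr i = G.nxt (G.op i) := by
    intro i hi
    show G.nxt (if ((sm2 D p).sm S).st i = .smooth then G.op i else i) = _
    rw [if_pos (st2 i hi)]
  by_cases c1 : j = p
  · subst c1
    rw [Equiv.swap_apply_of_ne_of_ne n1 n2, t1 _ (Or.inl rfl), t2 _ (Or.inl rfl), Equiv.swap_apply_left, h.nx]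
  by_cases c2 : j = G.op p
  · subst c2
    rw [Equiv.swap_apply_of_ne_of_ne n4 n3, t1 _ (Or.inr (Or.inl rfl)), t2 _ (Or.inr (Or.inl rfl)), G.op_op, ← h.nx,
      Equiv.swap_apply_right]
  by_cases c3 : j = G.nxt p
  · subst c3
    rw [Equiv.swap_apply_left, t1 _ (Or.inr (Or.inr (Or.inl rfl))), t2 _ (Or.inr (Or.inr (Or.inr rfl))), G.op_op,
      Equiv.swap_apply_of_ne_of_ne]
    · intro e
      exact n1 (G.nxt.injective e).symm
    · intro e
      rw [h.nx] at e
      exact n4 (G.nxt.injective e).symm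
  by_cases c4 : j = G.op (G.nxt p)
  · subst c4
    rw [Equiv.swap_apply_right, t1 _ (Or.inr (Or.inr (Or.inr rfl))), t2 _ (Or.inr (Or.inr (Or.inl rfl))),
      Equiv.swap_apply_of_ne_of_ne]
    · intro e
      exact n2 (G.nxt.injective e).symm
    · intro e
      nth_rewrite 2 [h.nx] at e
      exact n3 (G.nxt.injective e).symm
  have c5 : ¬ (j = p ∨ j = G.op p ∨ j = G.nxt p ∨ j = G.op (G.nxt p)) := by tauto
  rw [Equiv.swap_apply_of_ne_of_ne c3 c4]
  have e1 : ((sm2 D p).sm S).tr j = (D.sm S).tr j := tr_congr _ _ _ (by rw [st3 j c5])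
  rw [e1, Equiv.swap_apply_of_ne_of_ne]
  · show G.nxt (if (D.sm S).st j = .smooth then G.op j else j) ≠ _
    split_ifs
    · intro e
      have := G.nxt.injective e
      apply c2
      rw [← this, G.op_op]
    · intro e
      exact c1 (G.nxt.injective e)
  · show G.nxt (if (D.sm S).st j = .smooth then G.op j else j) ≠ _
    rw [h.nx]
    split_ifs
    · intro e
      have := G.nxt.injective e
      exact c1 (op_inj G this)
    · intro e
      exact c2 (G.nxt.injective e)

theorem iter_conj (h : Big G p) (D : Dg G) (S : Finset P) (h1 : D.st p ≠ .smooth) (h2 : D.st (G.nxt p) ≠ .smooth)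
    (hS : ∀ j ∈ S, j ≠ p ∧ j ≠ G.op p ∧ j ≠ G.nxt p ∧ j ≠ G.op (G.nxt p)) (k : ℕ) :
    ((sm2 D p).sm S).tr^[k] p = Equiv.swap (G.nxt p) (G.op (G.nxt p)) ((D.sm S).tr^[k] p) := by
  induction k with
  | zero => exact (Equiv.swap_apply_of_ne_of_ne h.p_ne_y1 h.p_ne_y2).symm
  | succ k ih => rw [Function.iterate_succ_apply', Function.iterate_succ_apply', ih, tr_conj h D S h1 h2 hS]

theorem asc_iff (h : Big G p) (D : Dg G) (S : Finset P) (h1 : D.st p ≠ .smooth) (h2 : D.st (G.nxt p) ≠ .smooth)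
    (hS : ∀ j ∈ S, j ≠ p ∧ j ≠ G.op p ∧ j ≠ G.nxt p ∧ j ≠ G.op (G.nxt p)) : Asc (sm2 D p) p S ↔ Asc D p S := by
  have e := iter_conj h D S h1 h2 hS
  have fx : ∀ i ∈ S, Equiv.swap (G.nxt p) (G.op (G.nxt p)) i = i := fun i hi =>
    Equiv.swap_apply_of_ne_of_ne (hS i hi).2.2.1 (hS i hi).2.2.2
  have fx2 : ∀ i ∈ S, Equiv.swap (G.nxt p) (G.op (G.nxt p)) (G.op i) = G.op i := fun i hi =>
    Equiv.swap_apply_of_ne_of_ne (fun e => (hS i hi).2.2.2 (by rw [← e, G.op_op]))
      (fun e => (hS i hi).2.2.1 (op_inj G e))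
  have key : ∀ k i, ((sm2 D p).sm S).tr^[k] p = i ↔ (D.sm S).tr^[k] p = Equiv.swap (G.nxt p) (G.op (G.nxt p)) i := by
    intro k i
    rw [e k]
    constructor
    · intro h
      rw [← h, Equiv.swap_apply_self]
    · intro h
      rw [h, Equiv.swap_apply_self]
  unfold Asc
  constructor
  · rintro ⟨a, b⟩
    refine ⟨fun i => ?_, fun i hi k hk => ?_⟩
    · obtain ⟨k, hk⟩ := a (Equiv.swap (G.nxt p) (G.op (G.nxt p)) i)
      refine ⟨k, ?_⟩
      rw [key, Equiv.swap_apply_self] at hk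
      exact hk
    · obtain ⟨l, hl, hl2⟩ := b i hi k (by rw [key, fx2 i hi]; exact hk)
      refine ⟨l, hl, ?_⟩
      rw [key, fx i hi] at hl2
      exact hl2
  · rintro ⟨a, b⟩
    refine ⟨fun i => ?_, fun i hi k hk => ?_⟩
    · obtain ⟨k, hk⟩ := a (Equiv.swap (G.nxt p) (G.op (G.nxt p)) i)
      exact ⟨k, (key k i).2 hk⟩
    · rw [key, fx2 i hi] at hk
      obtain ⟨l, hl, hl2⟩ := b i hi k hk
      exact ⟨l, hl, by rw [key, fx i hi]; exact hl2⟩

/-- **The second Reidemeister move** for parallel strands, seen from the upper passage of the negative crossing. -/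
theorem r2_aux [Fintype P] {R : Type*} [CommRing R] {z c : R} {f : Dg G → R} (h : Big G p) (hf : Cw z c p f) (D : Dg G)
    (hlf : G.lf p = true) (hn : D.st p = .neg) (hy : D.st (G.nxt p) = .pos)
    (hD : ∀ i, i ≠ p → i ≠ G.op p → D.st i = .pos ∨ D.st i = .smooth) : f D = f (sm2 D p) := by
  have h1 : D.st p ≠ .smooth := by rw [hn]; simp
  have h2 : D.st (G.nxt p) ≠ .smooth := by rw [hy]; simp
  have hov : D.ovr p = true := by
    unfold Dg.ovr
    rw [hn]
    exact hlf
  rw [expand_neg hf D hov (fun i _ a b => hD i a b), expand hf (sm2 D p) (fun i hi => by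
    rw [sm2_st]
    split_ifs with h3
    · exact Or.inr rfl
    · exact hD i (by tauto) (by tauto))]
  apply Finset.sum_congr _ (fun _ _ => rfl)
  ext S
  rw [Finset.mem_filter, Finset.mem_filter, Finset.mem_powerset, Finset.mem_powerset]
  have hside : G.lf (G.nxt p) = false := by
    have := h.side
    rw [hlf] at this
    simpa using this
  constructor
  · rintro ⟨hS, hA⟩
    have hS' : ∀ j ∈ S, j ≠ p ∧ j ≠ G.op p ∧ j ≠ G.nxt p ∧ j ≠ G.op (G.nxt p) := by
      intro j hj
      have h3 := mem_unv.1 (hS hj)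
      have h4 := h3.2 0 (by omega)
      have e1 : j ≠ p := fun e => h4.1 e.symm
      have e2 : j ≠ G.op p := fun e => h4.2 (by rw [e, G.op_op]; rfl)
      refine ⟨e1, e2, ?_, ?_⟩
      · intro e
        have := h3.1.2.1
        rw [e, hside] at this
        simp at this
      · intro e
        have h5 : (D.sm S).tr^[1] p = G.op j := by
          rw [e, G.op_op]
          show G.nxt (if (D.sm S).st p = .smooth then G.op p else p) = _
          rw [if_neg]
          have a1 : p ∉ S := fun hp => (mem_unv.1 (hS hp)).2 0 (by omega) |>.1 rfl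
          have a2 : G.op p ∉ S := fun hp => (mem_unv.1 (hS hp)).2 0 (by omega) |>.2 (by rw [G.op_op]; rfl)
          rw [sm_st_not D S p a1 a2]
          exact h1
        obtain ⟨l, hl, hl2⟩ := hA.2 j hj 1 h5
        have : l = 0 := by omega
        subst this
        exact e1 hl2.symm
    refine ⟨fun j hj => ?_, (asc_iff h D S h1 h2 hS').2 hA⟩
    have h3 := (mem_unv.1 (hS hj)).1
    refine mem_unv.2 ⟨⟨h3.1, h3.2.1, ?_⟩, fun l hl => absurd hl (by omega)⟩
    have := hS' j hj
    rw [sm2_st, if_neg (by tauto)]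
    exact h3.2.2
  · rintro ⟨hS, hA⟩
    have hS' : ∀ j ∈ S, j ≠ p ∧ j ≠ G.op p ∧ j ≠ G.nxt p ∧ j ≠ G.op (G.nxt p) := by
      intro j hj
      have h3 := (mem_unv.1 (hS hj)).1.2.2
      rw [sm2_st] at h3
      split_ifs at h3 with h4
      tauto
    refine ⟨fun j hj => ?_, (asc_iff h D S h1 h2 hS').1 hA⟩
    have h3 := (mem_unv.1 (hS hj)).1
    have h5 := hS' j hj
    refine mem_unv.2 ⟨⟨h3.1, h3.2.1, ?_⟩, fun l hl => ?_⟩
    · have := h3.2.2
      rwa [sm2_st, if_neg (by tauto)] at this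
    · have : l = 0 := by omega
      subst this
      refine ⟨fun e => h5.1 e.symm, fun e => h5.2.1 ?_⟩
      have e' : p = G.op j := e
      rw [e', G.op_op]

/-- **The second Reidemeister move** for parallel strands. -/
theorem r2 [Fintype P] {R : Type*} [CommRing R] {z c : R} {f : Dg G → R} (h : Big G p) (hf : ∀ b, Cw z c b f) (D : Dg G)
    (hn : D.st p = .neg) (hy : D.st (G.nxt p) = .pos)
    (hD : ∀ i, i ≠ p → i ≠ G.op p → D.st i = .pos ∨ D.st i = .smooth) : f D = f (sm2 D p) := by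
  by_cases hlf : G.lf p = true
  · exact r2_aux h (hf p) D hlf hn hy hD
  · have h1 : G.lf (G.op p) = true := by
      rw [G.lf_op p h.opp]
      simpa using hlf
    rw [r2_aux h.op (hf _) D h1 (by rw [D.st_op]; exact hn) (by rw [← h.nx, D.st_op]; exact hy)
      (fun i a b => hD i (by rwa [G.op_op] at b) a), sm2_op D h]

end r2

/-- at most one negative crossing: the coefficients are not negative -/
theorem nn_of [Fintype P] {nab : Dg G → ℤ[X]} (hn : Cs nab) (D : Dg G) (p : P) (hop : G.op p ≠ p) (hp : D.st p = .neg)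
    (hD : ∀ i, i ≠ p → i ≠ G.op p → D.st i = .pos ∨ D.st i = .smooth) (k : ℕ) : 0 ≤ (nab D).coeff k := by
  obtain ⟨b, hb, hb2⟩ : ∃ b, (b = p ∨ b = G.op p) ∧ G.lf b = true := by
    by_cases hlf : G.lf p = true
    · exact ⟨p, Or.inl rfl, hlf⟩
    · refine ⟨G.op p, Or.inr rfl, ?_⟩
      rw [G.lf_op p hop]
      simpa using hlf
  have hst : D.st b = .neg := by
    rcases hb with rfl | rfl
    · exact hp
    · rw [D.st_op]; exact hp
  rw [expand_neg (hn.cw b) D (by unfold Dg.ovr; rw [hst]; exact hb2) (fun i _ a c => hD i (by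
    rcases hb with rfl | rfl
    · exact a
    · rwa [G.op_op] at c) (by
    rcases hb with rfl | rfl
    · exact c
    · exact a)), finsetSum_coeff]
  refine Finset.sum_nonneg fun S _ => ?_
  rw [one_mul, coeff_X_pow]
  split_ifs <;> norm_num

theorem nn_pos [Fintype P] [Nonempty P] {nab : Dg G → ℤ[X]} (hn : Cs nab) (D : Dg G)
    (hD : ∀ i, D.st i = .pos ∨ D.st i = .smooth) (k : ℕ) : 0 ≤ (nab D).coeff k := by
  obtain ⟨b⟩ := ‹Nonempty P›
  rw [expand (hn.cw b) D (fun i _ => hD i), finsetSum_coeff]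
  refine Finset.sum_nonneg fun S _ => ?_
  rw [one_mul, coeff_X_pow]
  split_ifs <;> norm_num

/-! ### Three parallel crossings -/

/-- Three different consecutive parallel crossings, `p` is a passage through the first one. -/
structure Tri (G : Sh P) (p : P) : Prop where
  fst : Big G p
  snd : Big G (G.nxt p)
  ne : G.nxt (G.nxt p) ≠ p
  ne' : G.nxt (G.nxt p) ≠ G.op p

theorem upd_upd (D : Dg G) (p : P) (t t' : St) : (D.upd p t).upd p t' = D.upd p t' := by
  ext j
  unfold Dg.upd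
  simp only
  split_ifs <;> rfl

theorem upd_same (D : Dg G) {p : P} {t : St} (h : D.st p = t) : D.upd p t = D := by
  rw [← h]
  exact upd_self D p

section tri

variable [Fintype P] {p : P}

/-- The skein identity of three consecutive parallel crossings. -/
theorem tri_id {R : Type*} [CommRing R] {z c : R} {f : Dg G → R} (h : Tri G p) (hf : ∀ b, Cw z c b f) (D : Dg G)
    (h1 : D.st p = .pos) (h2 : D.st (G.nxt p) = .pos) (h3 : D.st (G.nxt (G.nxt p)) = .pos)
    (hD : ∀ i, D.st i = .pos ∨ D.st i = .smooth) :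
    f D = z * f ((sm2 D p).upd (G.nxt (G.nxt p)) .smooth) + (1 + z ^ 2) * f (sm2 D p) := by
  have a1 : G.nxt p ≠ p := h.fst.p_ne_y1.symm
  have a2 : G.nxt p ≠ G.op p := h.fst.ne
  have s1 := (hf p).skein D p h.fst.opp
  have s2 := (hf p).skein (D.upd p .smooth) (G.nxt p) h.snd.opp
  rw [upd_same D h1] at s1
  rw [upd_same (D.upd p .smooth) (by rw [upd_st_ne _ _ _ _ a1 a2]; exact h2)] at s2
  have r1 : f (D.upd p .neg) = f (sm2 D p) := by
    rw [r2 h.fst hf (D.upd p .neg) (upd_st _ _ _ _ (Or.inl rfl)) (by rw [upd_st_ne _ _ _ _ a1 a2]; exact h2)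
      (fun i b1 b2 => by rw [upd_st_ne _ _ _ _ b1 b2]; exact hD i)]
    unfold sm2
    rw [upd_upd]
  have r2' : f ((D.upd p .smooth).upd (G.nxt p) .neg) = f ((sm2 D p).upd (G.nxt (G.nxt p)) .smooth) := by
    rw [r2 h.snd hf ((D.upd p .smooth).upd (G.nxt p) .neg) (upd_st _ _ _ _ (Or.inl rfl)) ?_ ?_]
    · unfold sm2
      rw [upd_upd]
    · rw [upd_st_ne _ _ _ _ h.snd.p_ne_y1.symm h.snd.ne, upd_st_ne _ _ _ _ h.ne h.ne']
      exact h3
    · intro i b1 b2
      rw [upd_st_ne _ _ _ _ b1 b2]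
      by_cases b3 : i = p ∨ i = G.op p
      · exact Or.inr (upd_st _ _ _ _ b3)
      · rw [not_or] at b3
        rw [upd_st_ne _ _ _ _ b3.1 b3.2]
        exact hD i
  have e1 : (D.upd p .smooth).upd (G.nxt p) .smooth = sm2 D p := rfl
  rw [e1, r2'] at s2
  rw [r1] at s1
  linear_combination s1 + z * s2

/-- the last crossing is positive: `nab D1 - X nab D0` has nonnegative coefficients -/
theorem tri_mono [Nonempty P] {nab : Dg G → ℤ[X]} (hn : Cs nab) (h : Tri G p) (D : Dg G)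
    (h3 : D.st (G.nxt (G.nxt p)) = .pos) (hD : ∀ i, D.st i = .pos ∨ D.st i = .smooth) :
    ∃ Q : ℤ[X], (∀ k, 0 ≤ Q.coeff k) ∧ nab (sm2 D p) = Q + X * nab ((sm2 D p).upd (G.nxt (G.nxt p)) .smooth) := by
  have hop : G.op (G.nxt (G.nxt p)) ≠ G.nxt (G.nxt p) := by
    rw [h.snd.nx]
    intro e
    exact h.snd.opp (G.nxt.injective e)
  have hst : (sm2 D p).st (G.nxt (G.nxt p)) = .pos := by
    rw [sm2_st, if_neg, h3]
    rintro (e | e | e | e)
    · exact h.ne e
    · exact h.ne' e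
    · exact h.snd.p_ne_y1 e.symm
    · exact h.snd.ne e
  have s := hn.skein (sm2 D p) (G.nxt (G.nxt p)) hop
  rw [upd_same _ hst] at s
  refine ⟨nab ((sm2 D p).upd (G.nxt (G.nxt p)) .neg), nn_of hn _ _ hop (upd_st _ _ _ _ (Or.inl rfl)) ?_, by linear_combination s⟩
  intro i b1 b2
  rw [upd_st_ne _ _ _ _ b1 b2, sm2_st]
  split_ifs
  · exact Or.inr rfl
  · exact hD i

end tri

/-! ### The bound -/

theorem norm_aeval_le {Q : ℤ[X]} (h : ∀ k, 0 ≤ Q.coeff k) (z : ℂ) : ‖aeval z Q‖ ≤ aeval (‖z‖ : ℝ) Q := by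
  rw [aeval_eq_sum_range, aeval_eq_sum_range]
  refine (norm_sum_le _ _).trans (Finset.sum_le_sum fun k _ => ?_)
  rw [zsmul_eq_mul, norm_mul, norm_pow, zsmul_eq_mul]
  apply mul_le_mul_of_nonneg_right _ (by positivity)
  have h1 : (0 : ℝ) ≤ (Q.coeff k : ℝ) := by exact_mod_cast h k
  have h2 : ((Q.coeff k : ℤ) : ℂ) = (((Q.coeff k : ℤ) : ℝ) : ℂ) := by push_cast; rfl
  rw [h2, Complex.norm_real, Real.norm_of_nonneg h1]

theorem aeval_nn {Q : ℤ[X]} (h : ∀ k, 0 ≤ Q.coeff k) {x : ℝ} (hx : 0 ≤ x) : 0 ≤ aeval x Q := by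
  rw [aeval_eq_sum_range]
  refine Finset.sum_nonneg fun k _ => ?_
  rw [zsmul_eq_mul]
  have h1 : (0 : ℝ) ≤ (Q.coeff k : ℝ) := by exact_mod_cast h k
  positivity

/-- the loss in one window -/
noncomputable def lam (z : ℂ) : ℝ := (1 + ‖1 + z ^ 2‖) / (2 + ‖z‖ ^ 2)

theorem lam_nn (z : ℂ) : 0 ≤ lam z := by unfold lam; positivity

theorem norm_one_add (z : ℂ) : ‖1 + z ^ 2‖ ≤ 1 + ‖z‖ ^ 2 := by
  refine (norm_add_le _ _).trans ?_
  rw [norm_one, norm_pow]

/-- the passages of the three crossings -/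
noncomputable def cr (G : Sh P) (p : P) : Finset P :=
  {p, G.op p, G.nxt p, G.op (G.nxt p), G.nxt (G.nxt p), G.op (G.nxt (G.nxt p))}

theorem step_ineq {q a w F0 F1 F D0 D1 : ℝ} {A z A0 A1 : ℂ} (hq : 0 ≤ q) (ha : a = ‖z‖) (hw : w = ‖1 + z ^ 2‖)
    (h0 : ‖A0‖ ≤ q * F0) (h1 : ‖A1‖ ≤ q * F1) (hF : F = a * F0 + (1 + a ^ 2) * F1) (hm : a * F0 ≤ F1)
    (hA : A = z * A0 + (1 + z ^ 2) * A1) (_ : D0 = D1) : ‖A‖ ≤ lam z * q * F := by
  have ha0 : 0 ≤ a := ha ▸ norm_nonneg _
  have hw0 : 0 ≤ w := hw ▸ norm_nonneg _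
  have hw1 : w ≤ 1 + a ^ 2 := by rw [ha, hw]; exact norm_one_add z
  have e1 : ‖A‖ ≤ a * (q * F0) + w * (q * F1) := by
    rw [hA, ha, hw]
    refine (norm_add_le _ _).trans ?_
    rw [norm_mul, norm_mul]
    exact add_le_add (mul_le_mul_of_nonneg_left h0 (norm_nonneg _)) (mul_le_mul_of_nonneg_left h1 (norm_nonneg _))
  have e2 : lam z = (1 + w) / (2 + a ^ 2) := by unfold lam; rw [ha, hw]
  refine e1.trans ?_
  rw [e2, hF]
  have hd : 0 < 2 + a ^ 2 := by positivity
  rw [div_mul_eq_mul_div, div_mul_eq_mul_div, le_div_iff₀ hd]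
  have e3 : 0 ≤ q * ((1 + a ^ 2 - w) * (F1 - a * F0)) :=
    mul_nonneg hq (mul_nonneg (by linarith) (by linarith))
  nlinarith [e3]

theorem h3_ind [Fintype P] [Nonempty P] {nab : Dg G → ℤ[X]} (hn : Cs nab) (z : ℂ) (T : Finset P) :
    ∀ D : Dg G, (∀ i, D.st i = .pos ∨ D.st i = .smooth) → (∀ p ∈ T, Tri G p) → (∀ p ∈ T, ∀ j ∈ cr G p, D.st j = .pos) →
      (∀ p ∈ T, ∀ p' ∈ T, p ≠ p' → Disjoint (cr G p) (cr G p')) →
      ‖aeval z (nab D)‖ ≤ lam z ^ T.card * aeval (‖z‖ : ℝ) (nab D) := by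
  induction T using Finset.induction_on with
  | empty =>
    intro D hD _ _ _
    rw [Finset.card_empty, pow_zero, one_mul]
    exact norm_aeval_le (nn_pos hn D hD) z
  | insert p T hp ih =>
    intro D hD hT hst hdis
    have hp1 := hT p (Finset.mem_insert_self _ _)
    have hs := hst p (Finset.mem_insert_self _ _)
    have m1 : D.st p = .pos := hs p (by simp [cr])
    have m2 : D.st (G.nxt p) = .pos := hs _ (by simp [cr])
    have m3 : D.st (G.nxt (G.nxt p)) = .pos := hs _ (by simp [cr])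
    have hid := tri_id hp1 (fun b => hn.cw b) D m1 m2 m3 hD
    obtain ⟨Q, hQ, hQ2⟩ := tri_mono hn hp1 D m3 hD
    set D1 := sm2 D p with hD1
    set D0 := D1.upd (G.nxt (G.nxt p)) .smooth with hD0
    have g1 : ∀ i, D1.st i = .pos ∨ D1.st i = .smooth := by
      intro i
      rw [hD1, sm2_st]
      split_ifs
      · exact Or.inr rfl
      · exact hD i
    have g0 : ∀ i, D0.st i = .pos ∨ D0.st i = .smooth := by
      intro i
      by_cases b : i = G.nxt (G.nxt p) ∨ i = G.op (G.nxt (G.nxt p))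
      · exact Or.inr (upd_st _ _ _ _ b)
      · rw [not_or] at b
        rw [hD0, upd_st_ne _ _ _ _ b.1 b.2]
        exact g1 i
    have k1 : ∀ j, j ∉ cr G p → D1.st j = D.st j := by
      intro j hj
      rw [hD1, sm2_st, if_neg]
      simp only [cr, Finset.mem_insert, Finset.mem_singleton] at hj
      tauto
    have k0 : ∀ j, j ∉ cr G p → D0.st j = D.st j := by
      intro j hj
      have hj' := hj
      simp only [cr, Finset.mem_insert, Finset.mem_singleton] at hj'
      rw [hD0, upd_st_ne _ _ _ _ (by tauto) (by tauto)]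
      exact k1 j hj
    have hT' : ∀ p' ∈ T, ∀ j ∈ cr G p', j ∉ cr G p := by
      intro p' hp' j hj hj2
      have hne : p' ≠ p := fun e => hp (e ▸ hp')
      exact Finset.disjoint_left.1 (hdis p' (Finset.mem_insert_of_mem hp') p (Finset.mem_insert_self _ _) hne) hj hj2
    have i1 := ih D1 g1 (fun p' h' => hT p' (Finset.mem_insert_of_mem h'))
      (fun p' h' j hj => by rw [k1 j (hT' p' h' j hj)]; exact hst p' (Finset.mem_insert_of_mem h') j hj)
      (fun p' h' p'' h'' => hdis p' (Finset.mem_insert_of_mem h') p'' (Finset.mem_insert_of_mem h''))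
    have i0 := ih D0 g0 (fun p' h' => hT p' (Finset.mem_insert_of_mem h'))
      (fun p' h' j hj => by rw [k0 j (hT' p' h' j hj)]; exact hst p' (Finset.mem_insert_of_mem h') j hj)
      (fun p' h' p'' h'' => hdis p' (Finset.mem_insert_of_mem h') p'' (Finset.mem_insert_of_mem h''))
    rw [Finset.card_insert_of_notMem hp, pow_succ']
    refine step_ineq (D0 := 0) (D1 := 0) (pow_nonneg (lam_nn z) _) rfl rfl i0 i1 ?_ ?_ ?_ rfl
    · rw [hid]
      simp only [map_add, map_mul, aeval_X, map_one, map_pow]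
    · have := congrArg (aeval (‖z‖ : ℝ)) hQ2
      simp only [map_add, map_mul, aeval_X] at this
      have h5 := aeval_nn hQ (norm_nonneg z)
      linarith
    · rw [hid]
      simp only [map_add, map_mul, aeval_X, map_one, map_pow]

end Pool.Agent.Helper85.EV4
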