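import Pool.Agent.Helper2.V8B.Def

/-!
# EV4: the inner crossings of the twist regions

Twist regions, and the numbers `side G (Bigon G) true p` and `side G (Bigon G) false p` of twist regions on the two sides of the Seifert circle of `p`, are defined in
`Helper2.V8B.Def`.
-/

set_option autoImplicit false

namespace Pool.Agent.Helper85.EV4

open Pool.Agent.Helper85.Exp Pool.Agent.Helper2.V8B

variable {P : Type}

/-- `q` is a passage through the middle one of three different consecutive crossings of a twist region: the edges which leave its crossing bound a bigon with the next
crossing, the edges which enter it bound a bigon with the crossing before, and the three crossings are different. -/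
structure Inner (G : Sh P) (q : P) : Prop where
  next : Bigon G q
  prev : Bigon G (G.nxt.symm q)
  ne : G.nxt q ≠ G.op q
  ne' : G.nxt.symm q ≠ G.op q
  ne'' : G.nxt q ≠ G.nxt.symm q ∧ G.nxt q ≠ G.op (G.nxt.symm q)

/-- The number of inner crossings (every crossing has exactly one passage with `lf p = true`). -/
noncomputable def inner (G : Sh P) : ℕ := Nat.card {p : P // G.lf p = true ∧ Inner G p}

end Pool.Agent.Helper85.EV4
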