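import Pool.Agent.Helper85.EV4.Win
import Pool.Agent.Helper85.EV4.Def

/-!
# EV4: inner crossings, disjoint windows, the bound
-/

set_option autoImplicit false

namespace Pool.Agent.Helper85.EV4

open Polynomial Classical Pool.Agent.Helper85.Exp Pool.Agent.Helper60.EV2 Pool.Agent.Helper43.Pln Pool.Agent.Helper2.V8B

variable {P : Type} {G : Sh P}

theorem bigon_iff (ho : ∀ i, G.op i ≠ i) {q : P} : Bigon G q ↔ (G.op (G.nxt q) = G.nxt (G.op q) ∧ G.lf (G.nxt q) ≠ G.lf q) := by
  unfold Bigon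
  rw [G.lf_op _ (ho _)]
  constructor
  · rintro ⟨h1, h2⟩
    refine ⟨h1.symm, fun e => ?_⟩
    rw [e] at h2
    revert h2
    cases G.lf q <;> simp
  · rintro ⟨h1, h2⟩
    refine ⟨h1.symm, ?_⟩
    revert h2
    cases G.lf q <;> cases G.lf (G.nxt q) <;> simp

theorem Inner.tri (ho : ∀ i, G.op i ≠ i) {q : P} (h : Inner G q) : Tri G (G.nxt.symm q) := by
  have h1 := (bigon_iff ho).1 h.next
  have h2 := (bigon_iff ho).1 h.prev
  refine ⟨⟨ho _, h2.1, h2.2, ?_⟩, ?_, ?_, ?_⟩
  · rw [Equiv.apply_symm_apply]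
    intro e
    apply h.ne'
    rw [← G.op_op (G.nxt.symm q), ← e]
  · rw [Equiv.apply_symm_apply]
    exact ⟨ho _, h1.1, h1.2, h.ne⟩
  · rw [Equiv.apply_symm_apply]; exact h.ne''.1
  · rw [Equiv.apply_symm_apply]; exact h.ne''.2

section sel

variable [Fintype P]

/-- all windows -/
noncomputable def wins (G : Sh P) : Finset P := Finset.univ.filter fun p => Tri G p

theorem inner_le (ho : ∀ i, G.op i ≠ i) : inner G ≤ (wins G).card := by
  unfold inner
  rw [← Nat.card_eq_finsetCard]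
  refine Nat.card_le_card_of_injective
    (fun x : {p : P // G.lf p = true ∧ Inner G p} => (⟨G.nxt.symm x.1, by
      unfold wins
      rw [Finset.mem_filter]
      exact ⟨Finset.mem_univ _, x.2.2.tri ho⟩⟩ : {x // x ∈ wins G})) ?_
  intro x y hxy
  have h1 := congrArg Subtype.val hxy
  exact Subtype.ext (G.nxt.symm.injective h1)

/-- the windows through the passage `i` start in this set -/
noncomputable def stt (G : Sh P) (i : P) : Finset P :=
  {i, G.op i, G.nxt.symm i, G.nxt.symm (G.op i), G.nxt.symm (G.nxt.symm i), G.nxt.symm (G.nxt.symm (G.op i))}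

omit [Fintype P] in
theorem mem_stt {i p : P} (h : i ∈ cr G p) : p ∈ stt G i := by
  simp only [cr, Finset.mem_insert, Finset.mem_singleton] at h
  simp only [stt, Finset.mem_insert, Finset.mem_singleton]
  rcases h with rfl | rfl | rfl | rfl | rfl | rfl
  · simp
  · simp [G.op_op]
  · simp
  · simp [G.op_op]
  · simp
  · simp [G.op_op]

theorem card_conf (p : P) : (Finset.univ.filter fun p' => ¬ Disjoint (cr G p') (cr G p)).card ≤ 36 := by
  have h1 : (Finset.univ.filter fun p' => ¬ Disjoint (cr G p') (cr G p)) ⊆ (cr G p).biUnion (stt G) := by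
    intro p' hp'
    have h2 := (Finset.mem_filter.1 hp').2
    rw [Finset.not_disjoint_iff] at h2
    obtain ⟨i, h3, h4⟩ := h2
    exact Finset.mem_biUnion.2 ⟨i, h4, mem_stt h3⟩
  refine (Finset.card_le_card h1).trans (Finset.card_biUnion_le.trans ?_)
  have h2 : ∀ i : P, (stt G i).card ≤ 6 := fun i => Finset.card_le_six
  have h3 : (cr G p).card ≤ 6 := Finset.card_le_six
  calc ∑ i ∈ cr G p, (stt G i).card ≤ ∑ _i ∈ cr G p, 6 := Finset.sum_le_sum fun i _ => h2 i
    _ = (cr G p).card * 6 := by rw [Finset.sum_const, smul_eq_mul]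
    _ ≤ 6 * 6 := Nat.mul_le_mul_right _ h3

/-- pairwise disjoint windows, at least one in `36` -/
theorem exists_disj (G : Sh P) : ∃ T : Finset P, (∀ p ∈ T, Tri G p) ∧ (∀ p ∈ T, ∀ p' ∈ T, p ≠ p' → Disjoint (cr G p) (cr G p')) ∧
    (wins G).card ≤ 36 * T.card := by
  obtain ⟨T, hT, hmax⟩ := ((wins G).powerset.filter
    (fun T => ∀ p ∈ T, ∀ p' ∈ T, p ≠ p' → Disjoint (cr G p) (cr G p'))).exists_maximal
    ⟨∅, by rw [Finset.mem_filter, Finset.mem_powerset]; exact ⟨Finset.empty_subset _, by simp⟩⟩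
  rw [Finset.mem_filter, Finset.mem_powerset] at hT
  refine ⟨T, fun p hp => (Finset.mem_filter.1 (hT.1 hp)).2, hT.2, ?_⟩
  have h1 : wins G ⊆ T.biUnion fun p => Finset.univ.filter fun p' => ¬ Disjoint (cr G p') (cr G p) := by
    intro w hw
    rw [Finset.mem_biUnion]
    by_contra hcon
    push Not at hcon
    have h2 : ∀ p ∈ T, Disjoint (cr G w) (cr G p) := by
      intro p hp
      have := hcon p hp
      rw [Finset.mem_filter] at this
      by_contra h3
      exact this ⟨Finset.mem_univ _, h3⟩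
    have h3 : insert w T ∈ (wins G).powerset.filter
        (fun T => ∀ p ∈ T, ∀ p' ∈ T, p ≠ p' → Disjoint (cr G p) (cr G p')) := by
      rw [Finset.mem_filter, Finset.mem_powerset]
      refine ⟨Finset.insert_subset hw hT.1, ?_⟩
      intro p hp p' hp' hne
      rcases Finset.mem_insert.1 hp with hp1 | hp1
      · rcases Finset.mem_insert.1 hp' with hp2 | hp2
        · exact absurd (hp1.trans hp2.symm) hne
        · rw [hp1]
          exact h2 p' hp2
      · rcases Finset.mem_insert.1 hp' with hp2 | hp2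
        · rw [hp2]
          exact (h2 p hp1).symm
        · exact hT.2 p hp1 p' hp2 hne
    have h4 : w ∈ T := (hmax h3 (Finset.subset_insert w T)) (Finset.mem_insert_self w T)
    have h5 := h2 w h4
    have h6 : w ∈ cr G w := by simp [cr]
    exact (Finset.disjoint_left.1 h5 h6) h6
  refine (Finset.card_le_card h1).trans (Finset.card_biUnion_le.trans ?_)
  calc ∑ p ∈ T, (Finset.univ.filter fun p' => ¬ Disjoint (cr G p') (cr G p)).card ≤ ∑ _p ∈ T, 36 :=
        Finset.sum_le_sum fun p _ => card_conf p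
    _ = 36 * T.card := by rw [Finset.sum_const, smul_eq_mul, mul_comm]

/-- **H3 for every `z`**: `M` windows, `M ≥ inner / 36`. -/
theorem h3 (ho : ∀ i, G.op i ≠ i) [Nonempty P] : ∃ M : ℕ, inner G ≤ 36 * M ∧ ∀ nab : Dg G → ℤ[X], Cs nab → ∀ z : ℂ,
    ‖aeval z (nab (allPos G))‖ ≤ ((1 + ‖1 + z ^ 2‖) / (2 + ‖z‖ ^ 2)) ^ M * aeval (‖z‖ : ℝ) (nab (allPos G)) := by
  obtain ⟨T, h1, h2, h3⟩ := exists_disj G
  exact ⟨T.card, (inner_le ho).trans h3, fun nab hn z =>
    h3_ind hn z T (allPos G) (fun i => Or.inl rfl) h1 (fun _ _ _ _ => rfl) h2⟩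

end sel

/-- the loss in polar form -/
theorem lam_le {r θ : ℝ} (hr : 0 ≤ r) {z : ℂ} (hz : z ^ 2 = (r : ℂ) * Complex.exp (θ * Complex.I)) :
    (1 + ‖1 + z ^ 2‖) / (2 + ‖z‖ ^ 2) ≤ Real.exp (-(r * (1 - Real.cos θ) / (2 * (1 + r) ^ 2))) := by
  have h1 : ‖z‖ ^ 2 = r := by
    rw [← norm_pow, hz, norm_mul, Complex.norm_exp_ofReal_mul_I, mul_one, Complex.norm_real, Real.norm_of_nonneg hr]
  have h2 : ‖1 + z ^ 2‖ ^ 2 = (1 + r) ^ 2 - 2 * r * (1 - Real.cos θ) := by
    rw [hz, Complex.exp_mul_I, ← Complex.ofReal_cos, ← Complex.ofReal_sin]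
    have e : (1 : ℂ) + (r : ℂ) * (((Real.cos θ : ℝ) : ℂ) + ((Real.sin θ : ℝ) : ℂ) * Complex.I) =
        ((1 + r * Real.cos θ : ℝ) : ℂ) + ((r * Real.sin θ : ℝ) : ℂ) * Complex.I := by
      push_cast
      ring
    rw [e, ← Complex.normSq_eq_norm_sq, Complex.normSq_add_mul_I]
    have h3 := Real.sin_sq_add_cos_sq θ
    linear_combination r ^ 2 * h3
  have hc1 := Real.cos_le_one θ
  have hc2 := Real.neg_one_le_cos θ
  set w := ‖1 + z ^ 2‖ with hw
  set c := 1 - Real.cos θ with hc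
  have hc0 : 0 ≤ c := by linarith
  have hcc : c ≤ 2 := by linarith
  have h3 : w ≤ (1 + r) - r * c / (1 + r) := by
    have h4 : 0 ≤ (1 + r) - r * c / (1 + r) := by
      rw [sub_nonneg, div_le_iff₀ (by linarith)]
      nlinarith [sq_nonneg (1 - r)]
    apply le_of_sq_le_sq _ h4
    rw [h2]
    have h5 : ((1 + r) - r * c / (1 + r)) ^ 2 = (1 + r) ^ 2 - 2 * r * c + (r * c / (1 + r)) ^ 2 := by
      field_simp
      ring
    rw [h5]
    have := sq_nonneg (r * c / (1 + r))
    linarith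
  rw [h1]
  have h6 : (1 + w) / (2 + r) ≤ 1 - r * c / (2 * (1 + r) ^ 2) := by
    rw [div_le_iff₀ (by linarith)]
    have h7 : r * c / (2 * (1 + r) ^ 2) * (2 + r) ≤ r * c / (1 + r) := by
      rw [div_mul_eq_mul_div, div_le_div_iff₀ (by positivity) (by positivity)]
      have : 0 ≤ r * c := by positivity
      nlinarith [mul_nonneg this (by positivity : (0:ℝ) ≤ r * (1 + r))]
    nlinarith
  refine h6.trans ?_
  have := Real.add_one_le_exp (-(r * c / (2 * (1 + r) ^ 2)))
  linarith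

end Pool.Agent.Helper85.EV4
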