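import Pool.Agent.Helper85.EV4.RowC
import Pool.Agent.Helper85.EV4.Sel
import Pool.Agent.Helper59.V8.Lens
import Pool.Agent.Helper59.V8.Sector

/-!
# EV4: the zeros when every Seifert circle has few twist regions on one side or few on the other
-/

set_option autoImplicit false

namespace Pool.Agent.Helper85.EV4

open Complex Finset Polynomial Classical Pool.Agent.Helper85.Exp Pool.Agent.Helper60.EV2 Pool.Agent.Helper2.PD Pool.Agent.Helper16.PD
  Pool.Agent.Helper43.Pln Pool.Agent.Helper59.V8 Pool.Agent.Helper2.V8B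

variable {P : Type} {G : Sh P}

/-- **Across a side of a parallel bigon** the step of a colouring is multiplied by `-s²`. -/
theorem row_step (ho : ∀ i, G.op i ≠ i) (c : Face G → ℂ) (s : ℂ)
    (hc : ∀ x : Cr G, c (Rf G x.1) + s ^ 2 * c (Lf G (G.nxt.symm x.1)) = s * (c (Lf G x.1) + c (Rf G (G.op x.1))))
    (a : P) (hB : Bigon G (seifert G a)) :
    c (Lf G (seifert G (seifert G a))) - c (Lf G (seifert G a)) = -s ^ 2 * (c (Lf G (seifert G a)) - c (Lf G a)) ∧
    c (Rf G (seifert G (seifert G a))) - c (Rf G (seifert G a)) = -s ^ 2 * (c (Rf G (seifert G a)) - c (Rf G a)) ∧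
    ((c (Lf G (seifert G (seifert G a))) = c (Lf G (seifert G a)) ∧ c (Lf G (seifert G a)) = c (Lf G a)) ∨
      (c (Rf G (seifert G (seifert G a))) = c (Rf G (seifert G a)) ∧ c (Rf G (seifert G a)) = c (Rf G a))) := by
  obtain ⟨e, he⟩ : ∃ e, e = seifert G a := ⟨_, rfl⟩
  rw [← he] at hB ⊢
  obtain ⟨h1, h2⟩ := (bigon_iff ho).1 hB
  have hna : G.nxt a = G.op e := by rw [he, seifert_apply, G.op_op]
  have hsop : seifert G (G.op e) = G.nxt e := by rw [seifert_apply, ← h1, G.op_op]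
  have hse : seifert G e = G.op (G.nxt e) := rfl
  have hna' : G.nxt.symm (G.op e) = a := by rw [← hna, Equiv.symm_apply_apply]
  cases hl : G.lf e with
  | true =>
    have l1 : G.lf (G.nxt a) = false := by rw [hna, G.lf_op e (ho e), hl]; rfl
    have l2 : G.lf (G.nxt e) = false := by
      rw [hl] at h2
      simpa using h2
    have l3 : G.lf (G.op (G.nxt e)) = true := by rw [G.lf_op _ (ho _), l2]; rfl
    have f1 : Lf G e = Lf G a := by rw [he]; exact step_false ho l1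
    have f2 : Lf G (seifert G e) = Lf G e := step_false ho l2
    have f3 : Rf G (G.nxt e) = Rf G (G.op e) := by
      rw [← hsop]
      apply step_true ho
      rw [← h1]
      exact l3
    have x1 := hc ⟨e, hl⟩
    have x2 := hc ⟨G.op (G.nxt e), l3⟩
    simp only at x1 x2
    have g1 : Lf G (G.nxt.symm e) = Rf G a := by rw [corner_S hl, hna']
    have g2 : Lf G (G.nxt.symm (G.op (G.nxt e))) = Rf G e := by
      rw [h1, Equiv.symm_apply_apply, corner_N hl]
    rw [g1] at x1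
    rw [g2, G.op_op, f3, ← hse, f2] at x2
    rw [f2, f1]
    rw [f1] at x1 x2
    refine ⟨by ring, by linear_combination x2 - x1, Or.inl ⟨rfl, rfl⟩⟩
  | false =>
    have l0 : G.lf (G.op e) = true := by rw [G.lf_op e (ho e), hl]; rfl
    have l1 : G.lf (G.nxt a) = true := by rw [hna]; exact l0
    have l2 : G.lf (G.nxt e) = true := by
      rw [hl] at h2
      simpa using h2
    have f1 : Rf G e = Rf G a := by rw [he]; exact step_true ho l1
    have f2 : Rf G (seifert G e) = Rf G e := step_true ho l2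
    have f3 : Lf G (G.nxt e) = Lf G (G.op e) := by
      rw [← hsop]
      apply step_false ho
      rw [← h1, G.lf_op _ (ho _), l2]
      rfl
    have x1 := hc ⟨G.op e, l0⟩
    have x2 := hc ⟨G.nxt e, l2⟩
    simp only at x1 x2
    have g1 : Rf G (G.op e) = Lf G e := by rw [corner_N l0, G.op_op]
    have g2 : Rf G (G.nxt e) = Lf G (seifert G e) := by rw [corner_N l2, hse]
    rw [g1, hna', G.op_op] at x1
    rw [g2, Equiv.symm_apply_apply, f3, ← hse, f2] at x2
    rw [f2, f1]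
    rw [f1] at x1 x2
    refine ⟨by linear_combination x2 - x1, by ring, Or.inr ⟨rfl, rfl⟩⟩

/-- a bigon does not change the side -/
theorem lf_bigon {e : P} (h : Bigon G e) : G.lf (seifert G e) = G.lf e := h.2

variable [Fintype P]

theorem pow_period (e : P) (k m : ℕ) : (seifert G ^ (k + Function.minimalPeriod (seifert G) e * m)) e = (seifert G ^ k) e := by
  have hper : (seifert G ^ Function.minimalPeriod (seifert G) e) e = e := by
    rw [Equiv.Perm.coe_pow]
    exact Function.iterate_minimalPeriod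
  induction m with
  | zero => simp
  | succ m ih => rw [mul_add, mul_one, ← add_assoc, pow_add, Equiv.Perm.mul_apply, hper, ih]

/-- without twist regions on one side, the circle is one-sided -/
theorem one_sided {b : Bool} {e : P} (h : ∀ q, (seifert G).SameCycle e q → G.lf q = b → Bigon G q) :
    (∀ k : ℕ, G.lf ((seifert G ^ k) e) = b) ∨ (∀ k : ℕ, G.lf ((seifert G ^ k) e) = !b) := by
  by_cases h0 : ∃ k₀ : ℕ, G.lf ((seifert G ^ k₀) e) = b
  · obtain ⟨k₀, hk₀⟩ := h0
    left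
    have h1 : ∀ j : ℕ, G.lf ((seifert G ^ (k₀ + j)) e) = b := by
      intro j
      induction j with
      | zero => exact hk₀
      | succ j ih =>
        rw [← add_assoc, pow_succ', Equiv.Perm.mul_apply, lf_bigon (h _ ⟨((k₀ + j : ℕ) : ℤ), by rw [zpow_natCast]⟩ ih), ih]
    intro k
    have h2 := h1 (k + Function.minimalPeriod (seifert G) e * k₀ - k₀)
    have h3 : k₀ ≤ Function.minimalPeriod (seifert G) e * k₀ := Nat.le_mul_of_pos_left _ (period_pos _ _)
    rw [Nat.add_sub_cancel' (by omega), pow_period] at h2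
    exact h2
  · push Not at h0
    right
    intro k
    have := h0 k
    revert this
    cases G.lf ((seifert G ^ k) e) <;> cases b <;> simp

/-- the estimate on one circle -/
theorem cycle_rows (ho : ∀ i, G.op i ≠ i) (c : Face G → ℂ) {s : ℂ} (hs : normSq s ≤ 1) (hs1 : 1 / 2 ≤ ‖1 + s ^ 2‖)
    (hc : ∀ x : Cr G, c (Rf G x.1) + s ^ 2 * c (Lf G (G.nxt.symm x.1)) = s * (c (Lf G x.1) + c (Rf G (G.op x.1))))
    {N : ℕ} (e : P) (hN : side G (Bigon G) true e * side G (Bigon G) false e ≤ N) :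
    |∑ k ∈ range (Function.minimalPeriod (seifert G) e),
        fj (c (Lf G ((seifert G ^ k) e))) (c (Rf G ((seifert G ^ k) e))) (c (Lf G ((seifert G ^ (k + 1)) e)))
          (c (Rf G ((seifert G ^ (k + 1)) e)))| ≤
      12 * ((N : ℝ) + 2) ^ 2 * ∑ k ∈ range (Function.minimalPeriod (seifert G) e),
        fu (c (Lf G ((seifert G ^ k) e))) (c (Rf G ((seifert G ^ k) e))) (c (Lf G ((seifert G ^ (k + 1)) e)))
          (c (Rf G ((seifert G ^ (k + 1)) e))) := by
  by_cases h0 : side G (Bigon G) true e * side G (Bigon G) false e = 0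
  · have h1 : ∃ b : Bool, side G (Bigon G) b e = 0 := by
      rcases Nat.mul_eq_zero.1 h0 with h | h
      · exact ⟨_, h⟩
      · exact ⟨_, h⟩
    obtain ⟨b, hb⟩ := h1
    have h2 : ∀ q, (seifert G).SameCycle e q → G.lf q = b → Bigon G q := by
      intro q hq hlq
      by_contra hcon
      unfold side at hb
      rw [Finite.card_eq_zero_iff] at hb
      exact hb.false ⟨q, hq, hcon, hlq⟩
    have h3 : (∀ k : ℕ, c (Lf G ((seifert G ^ (k + 1)) e)) = c (Lf G ((seifert G ^ k) e))) ∨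
        (∀ k : ℕ, c (Rf G ((seifert G ^ (k + 1)) e)) = c (Rf G ((seifert G ^ k) e))) := by
      have h4 : ∀ k : ℕ, (seifert G ^ (k + 1)) e = seifert G ((seifert G ^ k) e) := fun k => by
        rw [pow_succ', Equiv.Perm.mul_apply]
      have h5 : ∀ k : ℕ, G.lf (G.nxt ((seifert G ^ k) e)) = !(G.lf ((seifert G ^ (k + 1)) e)) := fun k => by
        rw [h4, seifert_apply, G.lf_op _ (ho _), Bool.not_not]
      rcases (one_sided h2) with h | h <;> cases b
      · right
        intro k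
        rw [h4, step_true ho (by rw [h5, h]; rfl)]
      · left
        intro k
        rw [h4, step_false ho (by rw [h5, h]; rfl)]
      · left
        intro k
        rw [h4, step_false ho (by rw [h5, h]; rfl)]
      · right
        intro k
        rw [h4, step_true ho (by rw [h5, h]; rfl)]
    rw [cycle_one (seifert G) (fun e => c (Lf G e)) (fun e => c (Rf G e)) e h3, abs_zero]
    refine mul_nonneg (by positivity) (Finset.sum_nonneg fun k _ => fu_nonneg _ _ _ _)
  have hN' : side G (Bigon G) true e + side G (Bigon G) false e ≤ N + 1 := by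
    obtain ⟨a, ha⟩ := Nat.exists_eq_succ_of_ne_zero (left_ne_zero_of_mul h0)
    obtain ⟨b, hb⟩ := Nat.exists_eq_succ_of_ne_zero (right_ne_zero_of_mul h0)
    rw [ha, hb] at hN ⊢
    simp only [Nat.succ_eq_add_one] at hN ⊢
    nlinarith [Nat.zero_le (a * b)]
  have hNN : ((N : ℝ) + 2) = (((N + 1 : ℕ) : ℝ) + 1) := by push_cast; ring
  rw [hNN]
  set n := Function.minimalPeriod (seifert G) e with hn
  have hper : (seifert G ^ n) e = e := by
    rw [Equiv.Perm.coe_pow]
    exact Function.iterate_minimalPeriod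
  have hstep : ∀ k : ℕ, (seifert G ^ (k + 1)) e = seifert G ((seifert G ^ k) e) := fun k => by
    rw [pow_succ', Equiv.Perm.mul_apply]
  refine rows_circle (fun k => c (Lf G ((seifert G ^ k) e))) (fun k => c (Rf G ((seifert G ^ k) e))) (q := -s ^ 2)
    (fun k => Bigon G ((seifert G ^ (k + 1)) e)) (period_pos _ _) (fun k => ?_) (fun k => ?_) (fun k => ?_) ?_ ?_ (fun k hk => ?_) ?_
  · simp only [pow_add, Equiv.Perm.mul_apply, hper]
  · simp only [pow_add, Equiv.Perm.mul_apply, hper]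
  · rw [hstep k]
    rcases step_or ho ((seifert G ^ k) e) with h | h
    · exact Or.inl (congrArg c h)
    · exact Or.inr (congrArg c h)
  · rw [norm_neg, norm_pow, ← Complex.normSq_eq_norm_sq]
    exact hs
  · rw [sub_neg_eq_add]
    exact hs1
  · rw [hstep k] at hk
    have h := row_step ho c s hc ((seifert G ^ k) e) hk
    rw [show k + 2 = (k + 1) + 1 from rfl, hstep (k + 1), hstep k]
    exact h
  · refine le_trans ?_ hN'
    unfold side
    rw [← Nat.card_eq_finsetCard, ← Nat.card_sum]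
    have hsc : ∀ x : {k // k ∈ (range n).filter (fun k => ¬ Bigon G ((seifert G ^ (k + 1)) e))},
        (seifert G).SameCycle e ((seifert G ^ (x.1 + 1)) e) := fun x => ⟨((x.1 + 1 : ℕ) : ℤ), by rw [zpow_natCast]⟩
    refine Nat.card_le_card_of_injective
      (fun x : {k // k ∈ (range n).filter (fun k => ¬ Bigon G ((seifert G ^ (k + 1)) e))} =>
        if h : G.lf ((seifert G ^ (x.1 + 1)) e) = true then
          (Sum.inl ⟨(seifert G ^ (x.1 + 1)) e, hsc x, (Finset.mem_filter.1 x.2).2, h⟩ :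
            {q : P // (seifert G).SameCycle e q ∧ ¬ Bigon G q ∧ G.lf q = true} ⊕ {q : P // (seifert G).SameCycle e q ∧ ¬ Bigon G q ∧ G.lf q = false})
        else Sum.inr ⟨(seifert G ^ (x.1 + 1)) e, hsc x, (Finset.mem_filter.1 x.2).2, by simpa using h⟩) ?_
    intro x y hxy
    have h1 : (seifert G ^ (x.1 + 1)) e = (seifert G ^ (y.1 + 1)) e := by
      simp only at hxy
      split_ifs at hxy with hx hy hy
      · exact congrArg Subtype.val (Sum.inl.inj hxy)
      · exact congrArg Subtype.val (Sum.inr.inj hxy)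
    have hx := Finset.mem_range.1 (Finset.mem_filter.1 x.2).1
    have hy := Finset.mem_range.1 (Finset.mem_filter.1 y.2).1
    rw [hstep, hstep] at h1
    have h2 := (seifert G).injective h1
    rw [Equiv.Perm.coe_pow, Equiv.Perm.coe_pow] at h2
    apply Subtype.ext
    exact (Function.iterate_injOn_Iio_minimalPeriod) hx hy h2

/-- **The lens for few twist regions.** -/
theorem lens_rows (hG : Plane G) (nab : Dg G → ℤ[X]) (hn : Cs nab) {N : ℕ} (hN : ∀ e : P, side G (Bigon G) true e * side G (Bigon G) false e ≤ N)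
    {s : ℂ} (hs0 : s ≠ 0) (hs1 : normSq s < 1) (hs2 : 1 / 2 ≤ ‖1 + s ^ 2‖) (hz : aeval (s⁻¹ - s) (nab (allPos G)) = 0) :
    2 * (1 + normSq s) ≤ 96 * ((N : ℝ) + 2) ^ 2 * |s.im| := by
  have h3 := lens hG nab hn hs0 hs1.ne hz (α := 0) (B := 24 * ((N : ℝ) + 2) ^ 2) le_rfl (fun _ => 12 * ((N : ℝ) + 2) ^ 2) (fun _ => rfl)
    (fun c hc => by
      refine ⟨fun e => ?_, fun x _ => by linarith⟩
      rw [zero_mul, add_zero]
      exact cycle_rows hG.cross c hs1.le hs2 hc e (hN e))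
  linarith

/-- from `s` to `z = 1/s - s` -/
theorem region_of {s : ℂ} (hs0 : s ≠ 0) {N : ℝ} (h : 2 * (1 + normSq s) ≤ N * |s.im|) :
    8 ≤ N * |(s⁻¹ - s).im| ∧ 4 * |(s⁻¹ - s).re| ≤ N * |(s⁻¹ - s).im| ∧ ‖s⁻¹ - s‖ ≤ N / 2 := by
  have hn' : normSq s = s.re ^ 2 + s.im ^ 2 := by rw [normSq_apply]; ring
  have hn0 : 0 < normSq s := normSq_pos.2 hs0
  have h1 : (s⁻¹ - s).re = s.re * (1 - normSq s) / normSq s := by
    rw [sub_re, inv_re]
    field_simp
  have h2 : (s⁻¹ - s).im = -(s.im * (1 + normSq s)) / normSq s := by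
    rw [sub_im, inv_im]
    field_simp
    ring
  set n := normSq s with hndef
  have hN0 : 0 ≤ N * |s.im| := by nlinarith
  have hN1 : 0 < N := by
    by_contra hcon
    push Not at hcon
    nlinarith [abs_nonneg s.im, mul_nonneg (neg_nonneg.2 hcon) (abs_nonneg s.im)]
  have hre : |(s⁻¹ - s).re| = |s.re| * |1 - n| / n := by
    rw [h1, abs_div, abs_mul, abs_of_pos hn0]
  have him : |(s⁻¹ - s).im| = |s.im| * (1 + n) / n := by
    rw [h2, abs_div, abs_neg, abs_mul, abs_of_pos hn0, abs_of_pos (by linarith : 0 < 1 + n)]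
  have hA : 2 * (1 + n) * (1 + n) ≤ N * |s.im| * (1 + n) := mul_le_mul_of_nonneg_right h (by linarith)
  have hsre : |s.re| * |1 - n| ≤ (1 + n) * (1 + n) / 2 := by
    have a1 : |s.re| ^ 2 ≤ n := by rw [sq_abs, hn']; nlinarith [sq_nonneg s.im]
    have a2 : |1 - n| ≤ 1 + n := by
      rw [abs_le]
      constructor <;> linarith
    have a3 : |s.re| ≤ (1 + n) / 2 := by
      nlinarith [sq_nonneg (|s.re| - 1)]
    have a4 := abs_nonneg (1 - n)
    have a5 := abs_nonneg s.re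
    nlinarith [mul_le_mul a3 a2 a4 (by linarith)]
  refine ⟨?_, ?_, ?_⟩
  · rw [him, mul_div_assoc', le_div_iff₀ hn0]
    nlinarith [sq_nonneg (n - 1)]
  · rw [hre, him, mul_div_assoc', mul_div_assoc', div_le_div_iff_of_pos_right hn0]
    nlinarith
  · have hs : normSq s = ‖s‖ ^ 2 := Complex.normSq_eq_norm_sq s
    have hs2 : 0 < ‖s‖ := norm_pos_iff.2 hs0
    have b1 : |s.im| ≤ ‖s‖ := Complex.abs_im_le_norm s
    have b2 : ‖s⁻¹ - s‖ ≤ ‖s‖⁻¹ + ‖s‖ := (norm_sub_le _ _).trans (by rw [norm_inv])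
    have b3 : 2 * (1 + ‖s‖ ^ 2) ≤ N * ‖s‖ := by
      rw [← hs]
      exact h.trans (mul_le_mul_of_nonneg_left b1 hN1.le)
    have b4 : ‖s‖⁻¹ + ‖s‖ = (1 + ‖s‖ ^ 2) / ‖s‖ := by
      field_simp
    refine b2.trans ?_
    rw [b4, div_le_iff₀ hs2]
    linarith

/-- near `z² = -4` -/
theorem region_near {s : ℂ} (hs0 : s ≠ 0) {N : ℝ} (hN : 8 ≤ N) (h : ‖1 + s ^ 2‖ < 1 / 2) :
    8 ≤ N * |(s⁻¹ - s).im| ∧ 4 * |(s⁻¹ - s).re| ≤ N * |(s⁻¹ - s).im| ∧ ‖s⁻¹ - s‖ ≤ N / 2 := by
  obtain ⟨z, hz⟩ : ∃ z, z = s⁻¹ - s := ⟨_, rfl⟩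
  rw [← hz]
  have e1 : z ^ 2 + 4 = (1 + s ^ 2) ^ 2 / s ^ 2 := by
    rw [hz]
    field_simp
    ring
  have e2 : 1 / 2 < ‖s ^ 2‖ := by
    have : ‖(1 : ℂ)‖ ≤ ‖1 + s ^ 2‖ + ‖s ^ 2‖ := by
      have := norm_sub_le (1 + s ^ 2) (s ^ 2)
      rwa [add_sub_cancel_right] at this
    rw [norm_one] at this
    linarith
  have e3 : ‖z ^ 2 + 4‖ ≤ 1 / 2 := by
    rw [e1, norm_div, norm_pow, div_le_iff₀ (by linarith)]
    nlinarith [norm_nonneg (1 + s ^ 2)]
  have r1 : |(z ^ 2 + 4).re| ≤ 1 / 2 := (Complex.abs_re_le_norm _).trans e3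
  have r2 : |(z ^ 2 + 4).im| ≤ 1 / 2 := (Complex.abs_im_le_norm _).trans e3
  have r3 : (z ^ 2 + 4).re = z.re ^ 2 - z.im ^ 2 + 4 := by
    simp [pow_two]
  have r4 : (z ^ 2 + 4).im = 2 * z.re * z.im := by
    simp [pow_two]
    ring
  rw [r3, abs_le] at r1
  rw [r4, abs_le] at r2
  have hy : (7 / 2 : ℝ) ≤ |z.im| ^ 2 := by rw [sq_abs]; nlinarith [sq_nonneg z.re, r1.1]
  have hy1 : (9 / 5 : ℝ) ≤ |z.im| := by
    by_contra hcon
    push Not at hcon
    nlinarith [abs_nonneg z.im]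
  have hx : |z.re| * |z.im| ≤ 1 / 4 := by
    rw [← abs_mul, abs_le]
    constructor <;> nlinarith [r2.1, r2.2]
  have hx1 : |z.re| ≤ 1 / 4 := by nlinarith [abs_nonneg z.re]
  refine ⟨?_, ?_, ?_⟩
  · nlinarith
  · nlinarith
  · have hn : ‖z‖ ^ 2 = z.re ^ 2 + z.im ^ 2 := by
      rw [← Complex.normSq_eq_norm_sq, normSq_apply]
      ring
    have hx2 : z.re ^ 2 ≤ 1 / 16 := by
      rw [← sq_abs]
      nlinarith [abs_nonneg z.re]
    have : ‖z‖ ^ 2 ≤ 4 ^ 2 := by
      rw [hn]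
      nlinarith [r1.1, r1.2]
    have h4 : ‖z‖ ≤ 4 := by
      apply le_of_sq_le_sq this (by norm_num)
    linarith

/-- **Zero-free regions** when the product of the numbers of twist regions on the two sides of a Seifert circle is bounded. -/
theorem zfree_rows (hG : Plane G) (nab : Dg G → ℤ[X]) (hn : Cs nab) {N : ℕ} (hN : ∀ e : P, side G (Bigon G) true e * side G (Bigon G) false e ≤ N)
    {z : ℂ} (hz : aeval z (nab (allPos G)) = 0) :
    (z.re = 0 ∧ |z.im| ≤ 2) ∨ (8 ≤ 96 * ((N : ℝ) + 2) ^ 2 * |z.im| ∧ 4 * |z.re| ≤ 96 * ((N : ℝ) + 2) ^ 2 * |z.im| ∧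
      ‖z‖ ≤ 96 * ((N : ℝ) + 2) ^ 2 / 2) := by
  have hN8 : (8 : ℝ) ≤ 96 * ((N : ℝ) + 2) ^ 2 := by nlinarith [(Nat.cast_nonneg N : (0 : ℝ) ≤ N)]
  obtain ⟨s, hs0, hs⟩ := exists_s z
  have key : ∀ s : ℂ, s ≠ 0 → s⁻¹ - s = z → normSq s < 1 →
      (8 ≤ 96 * ((N : ℝ) + 2) ^ 2 * |z.im| ∧ 4 * |z.re| ≤ 96 * ((N : ℝ) + 2) ^ 2 * |z.im| ∧
      ‖z‖ ≤ 96 * ((N : ℝ) + 2) ^ 2 / 2) := by
    intro s hs0 hs h1
    rw [← hs]
    by_cases h2 : ‖1 + s ^ 2‖ < 1 / 2
    · exact region_near hs0 hN8 h2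
    · push Not at h2
      exact region_of hs0 (lens_rows hG nab hn hN hs0 h1 h2 (by rw [hs]; exact hz))
  rcases lt_trichotomy (normSq s) 1 with h1 | h1 | h1
  · exact Or.inr (key s hs0 hs h1)
  · left
    rw [← hs]
    have hn' : normSq s = s.re ^ 2 + s.im ^ 2 := by rw [normSq_apply]; ring
    have e1 : (s⁻¹ - s).re = 0 := by
      rw [sub_re, inv_re, h1]
      simp
    have e2 : (s⁻¹ - s).im = -(2 * s.im) := by
      rw [sub_im, inv_im, h1]
      ring
    refine ⟨e1, ?_⟩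
    have h5 : s.im ^ 2 ≤ 1 := by nlinarith [sq_nonneg s.re]
    have h6 : |s.im| ≤ 1 := by rwa [sq_le_one_iff_abs_le_one] at h5
    rw [e2, abs_neg, abs_mul]
    norm_num
    linarith
  · refine Or.inr (key (-s⁻¹) (neg_ne_zero.2 (inv_ne_zero hs0)) ?_ ?_)
    · rw [← hs, inv_neg, inv_inv]
      ring
    · rw [normSq_neg, normSq_inv]
      exact inv_lt_one_of_one_lt₀ h1

end Pool.Agent.Helper85.EV4
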