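import Pool.Agent.Helper57.EV4.Fin
import Pool.Agent.Helper74.EV4.Core4All
import Pool.Agent.Helper85.EV4.Sel
import Pool.Agent.Helper85.EV4.RowL

/-!
# MP_ea8a26, project EV4: plane diagrams whose Seifert circles have few twist regions
-/

set_option autoImplicit false

namespace Pool.Agent.Helper85.EV4

open Polynomial Pool.Agent.Helper85.Exp Pool.Agent.Helper60.EV2 Pool.Agent.Helper57.EV2 Pool.Agent.Helper43.Pln Pool.Agent.Helper2.V8B

/-- **The number of Seifert circles is not bounded.** For all `N` and `K` there is `m₀` such that the Conway polynomial of the positive diagram of a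
plane shape is log-concave when every Seifert circle, with `l` and `r` twist regions on its two sides, has `l r ≤ N`, when at least one crossing in `K`
is an inner crossing of its twist region, and when there are at least `m₀` crossings. -/
theorem main_rows (N K : ℕ) : ∃ m₀ : ℕ, ∀ (P : Type) [Fintype P] (G : Sh P), Plane G →
    (∀ e : P, side G (Bigon G) true e * side G (Bigon G) false e ≤ N) →
    crossings G ≤ K * inner G → m₀ ≤ crossings G → ∀ nab : Dg G → ℤ[X], Cs nab → LogConcave G nab := by
  have hN8 : (8 : ℝ) ≤ 96 * ((N : ℝ) + 2) ^ 2 := by nlinarith [(Nat.cast_nonneg N : (0 : ℝ) ≤ N)]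
  obtain ⟨m₀, hm₀⟩ := Pool.Agent.Helper57.EV4.fin_of' Pool.Agent.Helper74.EV4.core4 hN8 (K * 36)
  refine ⟨m₀, fun P _ G hG hN hK hm nab hn => ?_⟩
  have hne := Pool.Agent.Helper43.Pln.nonempty_of hG
  obtain ⟨M, hM1, hM2⟩ := h3 (G := G) hG.cross
  refine hm₀ P G hG hm nab hn (fun z hz => zfree_rows hG nab hn hN hz) M ?_ (fun z => hM2 nab hn z)
  calc crossings G ≤ K * inner G := hK
    _ ≤ K * (36 * M) := Nat.mul_le_mul_left K hM1
    _ = K * 36 * M := (mul_assoc _ _ _).symm

end Pool.Agent.Helper85.EV4
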