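import Pool.Agent.Helper59.V8.Cyc

/-!
# EV4: a closed circle with few rows

Across an edge inside a row of parallel crossings the step of the colouring is multiplied by `q = -s²`.
-/

set_option autoImplicit false

namespace Pool.Agent.Helper85.EV4

open Finset Complex Pool.Agent.Helper59.V8 Classical

section seq

variable {n N : ℕ} (L R : ℕ → ℂ) {q : ℂ} (inn : ℕ → Prop)

/-- the length of a step -/
noncomputable def el (L R : ℕ → ℂ) (k : ℕ) : ℝ := ‖L (k + 1) - L k‖ + ‖R (k + 1) - R k‖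

theorem el_nn (k : ℕ) : 0 ≤ el L R k := add_nonneg (norm_nonneg _) (norm_nonneg _)

theorem el_sq {k : ℕ} (hs : L (k + 1) = L k ∨ R (k + 1) = R k) : el L R k ^ 2 = fu (L k) (R k) (L (k + 1)) (R (k + 1)) := by
  unfold el fu
  rw [Complex.normSq_eq_norm_sq, Complex.normSq_eq_norm_sq]
  rcases hs with h | h
  · rw [h]; simp
  · rw [h]; simp

theorem sum_shift (f : ℕ → ℝ) (hf : f n = f 0) : ∑ k ∈ range n, f (k + 1) = ∑ k ∈ range n, f k := by
  have h1 := Finset.sum_range_succ f n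
  have h2 := Finset.sum_range_succ' f n
  rw [h1, hf] at h2
  linarith

theorem tele (d : ℕ → ℂ) (q : ℂ) (k : ℕ) : (1 - q) * ∑ j ∈ range (k + 1), d j =
    d 0 - q * d k + ∑ j ∈ range k, (d (j + 1) - q * d j) := by
  rw [Finset.sum_sub_distrib, ← Finset.mul_sum]
  have h1 := Finset.sum_range_succ' d k
  have h2 := Finset.sum_range_succ d k
  have e : ∑ j ∈ range k, d j = ∑ j ∈ range (k + 1), d j - d k := by rw [h2]; ring
  have e' : ∑ j ∈ range k, d (j + 1) = ∑ j ∈ range (k + 1), d j - d 0 := by rw [h1]; ring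
  rw [e, e']
  ring

/-- **One circle with at most `N` breaks.** -/
theorem rows_circle (hn : 1 ≤ n) (hL : ∀ k, L (k + n) = L k) (hR : ∀ k, R (k + n) = R k)
    (hs : ∀ k, L (k + 1) = L k ∨ R (k + 1) = R k) (hq : ‖q‖ ≤ 1) (hq1 : 1 / 2 ≤ ‖1 - q‖)
    (h1 : ∀ k, inn k → L (k + 2) - L (k + 1) = q * (L (k + 1) - L k) ∧ R (k + 2) - R (k + 1) = q * (R (k + 1) - R k) ∧
      ((L (k + 2) = L (k + 1) ∧ L (k + 1) = L k) ∨ (R (k + 2) = R (k + 1) ∧ R (k + 1) = R k)))
    (hN : ((range n).filter (fun k => ¬ inn k)).card ≤ N) :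
    |∑ k ∈ range n, fj (L k) (R k) (L (k + 1)) (R (k + 1))| ≤
      12 * ((N : ℝ) + 1) ^ 2 * ∑ k ∈ range n, fu (L k) (R k) (L (k + 1)) (R (k + 1)) := by
  obtain ⟨B, hB⟩ : ∃ B, B = (range n).filter (fun k => ¬ inn k) := ⟨_, rfl⟩
  obtain ⟨E, hE⟩ : ∃ E : ℝ, E = ∑ k ∈ range n, fu (L k) (R k) (L (k + 1)) (R (k + 1)) := ⟨_, rfl⟩
  obtain ⟨β, hβ⟩ : ∃ β : ℝ, β = ∑ k ∈ B, (el L R (k + 1) + el L R k) := ⟨_, rfl⟩
  have hE' : E = ∑ k ∈ range n, el L R k ^ 2 := by
    rw [hE]
    exact Finset.sum_congr rfl fun k _ => (el_sq L R (hs k)).symm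
  have hE0 : 0 ≤ E := by rw [hE']; exact Finset.sum_nonneg fun k _ => sq_nonneg _
  have hL0 : L n = L 0 := by have := hL 0; rwa [zero_add] at this
  have hR0 : R n = R 0 := by have := hR 0; rwa [zero_add] at this
  have hL1 : L (n + 1) = L 1 := by have := hL 1; rwa [add_comm 1 n] at this
  have hR1 : R (n + 1) = R 1 := by have := hR 1; rwa [add_comm 1 n] at this
  have heln : el L R n = el L R 0 := by
    unfold el
    rw [hL0, hR0, hL1, hR1]
  have hβ0 : 0 ≤ β := by
    rw [hβ]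
    exact Finset.sum_nonneg fun k _ => add_nonneg (el_nn L R _) (el_nn L R _)
  -- `β² ≤ 4 N E`
  have hβ2 : β ^ 2 ≤ 4 * N * E := by
    have a1 : β ^ 2 ≤ (B.card : ℝ) * ∑ k ∈ B, (el L R (k + 1) + el L R k) ^ 2 := by
      rw [hβ]
      exact sq_sum_le_card_mul_sum_sq
    have hBn : B ⊆ range n := by
      rw [hB]
      exact Finset.filter_subset _ _
    have a2 : ∑ k ∈ B, (el L R (k + 1) + el L R k) ^ 2 ≤ 4 * E := by
      have b1 : ∑ k ∈ B, (el L R (k + 1) + el L R k) ^ 2 ≤ ∑ k ∈ range n, (2 * el L R (k + 1) ^ 2 + 2 * el L R k ^ 2) := by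
        refine (Finset.sum_le_sum_of_subset_of_nonneg hBn fun _ _ _ => sq_nonneg _).trans ?_
        refine Finset.sum_le_sum fun k _ => ?_
        nlinarith [sq_nonneg (el L R (k + 1) - el L R k)]
      refine b1.trans (le_of_eq ?_)
      rw [Finset.sum_add_distrib, ← Finset.mul_sum, ← Finset.mul_sum,
        sum_shift (fun k => el L R k ^ 2) (by simp only [heln]), ← hE']
      ring
    have a3 : (B.card : ℝ) ≤ N := by rw [hB]; exact_mod_cast hN
    refine a1.trans ?_
    have a4 : 0 ≤ ∑ k ∈ B, (el L R (k + 1) + el L R k) ^ 2 := Finset.sum_nonneg fun _ _ => sq_nonneg _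
    calc (B.card : ℝ) * ∑ k ∈ B, (el L R (k + 1) + el L R k) ^ 2 ≤ N * (4 * E) :=
          mul_le_mul a3 a2 a4 (Nat.cast_nonneg _)
      _ = 4 * N * E := by ring
  have hN0 : (0 : ℝ) ≤ N := Nat.cast_nonneg N
  have hsE := Real.sqrt_nonneg E
  have hsE2 := Real.sq_sqrt hE0
  have hβ3 : β ≤ (N + 1) * Real.sqrt E := by
    apply le_of_sq_le_sq _ (by positivity)
    rw [mul_pow, hsE2]
    refine hβ2.trans (mul_le_mul_of_nonneg_right ?_ hE0)
    nlinarith [sq_nonneg ((N : ℝ) - 1)]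
  have hel : ∀ k, k < n → el L R k ≤ Real.sqrt E := by
    intro k hk
    apply Real.le_sqrt_of_sq_le
    rw [hE']
    exact Finset.single_le_sum (f := fun k => el L R k ^ 2) (fun _ _ => sq_nonneg _) (Finset.mem_range.2 hk)
  -- distance from the start
  have dist : ∀ (f : ℕ → ℂ), (∀ k, ‖f (k + 1) - f k‖ ≤ el L R k) → (∀ k, inn k → f (k + 2) - f (k + 1) = q * (f (k + 1) - f k)) →
      ∀ k, k ≤ n → ‖f k - f 0‖ ≤ 2 * (2 * Real.sqrt E + β) := by
    intro f hf1 hf2 k hk
    rcases Nat.eq_zero_or_pos k with h0 | h0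
    · rw [h0, sub_self, norm_zero]
      positivity
    obtain ⟨m, rfl⟩ : ∃ m, k = m + 1 := ⟨k - 1, by omega⟩
    have t := tele (fun j => f (j + 1) - f j) q m
    rw [Finset.sum_range_sub] at t
    have e1 : ‖(1 - q) * (f (m + 1) - f 0)‖ ≤ 2 * Real.sqrt E + β := by
      rw [t]
      refine (norm_add_le _ _).trans (add_le_add ?_ ?_)
      · refine (norm_sub_le _ _).trans ?_
        rw [norm_mul]
        have b1 : ‖f (0 + 1) - f 0‖ ≤ Real.sqrt E := (hf1 0).trans (hel 0 (by omega))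
        have b2 : ‖f (m + 1) - f m‖ ≤ Real.sqrt E := (hf1 m).trans (hel m (by omega))
        have b3 : ‖q‖ * ‖f (m + 1) - f m‖ ≤ 1 * Real.sqrt E := mul_le_mul hq b2 (norm_nonneg _) zero_le_one
        linarith
      · have b4 : ∑ j ∈ range m, (f (j + 1 + 1) - f (j + 1) - q * (f (j + 1) - f j)) =
            ∑ j ∈ (range m).filter (fun k => ¬ inn k), (f (j + 1 + 1) - f (j + 1) - q * (f (j + 1) - f j)) := by
          symm
          apply Finset.sum_subset (Finset.filter_subset _ _)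
          intro j hj hj2
          rw [Finset.mem_filter, not_and, not_not] at hj2
          have := hf2 j (hj2 hj)
          rw [show j + 1 + 1 = j + 2 from rfl, this, sub_self]
        rw [b4]
        refine (norm_sum_le _ _).trans ?_
        rw [hβ]
        have b5 : (range m).filter (fun k => ¬ inn k) ⊆ B := by
          rw [hB]
          apply Finset.filter_subset_filter
          exact Finset.range_subset_range.2 (by omega)
        refine le_trans ?_ (Finset.sum_le_sum_of_subset_of_nonneg b5 fun _ _ _ => add_nonneg (el_nn L R _) (el_nn L R _))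
        refine Finset.sum_le_sum fun j _ => ?_
        refine (norm_sub_le _ _).trans (add_le_add (hf1 (j + 1)) ?_)
        rw [norm_mul]
        have b6 : ‖q‖ * ‖f (j + 1) - f j‖ ≤ 1 * el L R j := mul_le_mul hq (hf1 j) (norm_nonneg _) zero_le_one
        linarith
    rw [norm_mul] at e1
    have e2 := mul_le_mul_of_nonneg_right hq1 (norm_nonneg (f (m + 1) - f 0))
    linarith
  have dL := dist L (fun k => le_add_of_nonneg_right (norm_nonneg _)) (fun k hk => (h1 k hk).1)
  have dR := dist R (fun k => le_add_of_nonneg_left (norm_nonneg _)) (fun k hk => (h1 k hk).2.1)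
  obtain ⟨M, hM⟩ : ∃ M : ℝ, M = 2 * (2 * Real.sqrt E + β) := ⟨_, rfl⟩
  have hM0 : 0 ≤ M := by rw [hM]; positivity
  -- the coupling with the base point subtracted
  obtain ⟨A, hA⟩ : ∃ A : ℕ → ℂ, A = fun k => (R k - R 0) * (starRingEnd ℂ) (L (k + 1) - L k) + (L k - L 0) * (starRingEnd ℂ) (R (k + 1) - R k) := ⟨_, rfl⟩
  have hAk : ∀ k, k ≤ n → ‖A k‖ ≤ M * el L R k := by
    intro k hk
    rw [hA]
    simp only
    refine (norm_add_le _ _).trans ?_
    rw [norm_mul, norm_mul, RCLike.norm_conj, RCLike.norm_conj]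
    unfold el
    have b1 := mul_le_mul_of_nonneg_right (dR k hk) (norm_nonneg (L (k + 1) - L k))
    have b2 := mul_le_mul_of_nonneg_right (dL k hk) (norm_nonneg (R (k + 1) - R k))
    rw [← hM] at b1 b2
    linarith
  have hAin : ∀ k, inn k → A (k + 1) = (starRingEnd ℂ) q * A k := by
    intro k hk
    obtain ⟨c1, c2, c3⟩ := h1 k hk
    rw [hA]
    simp only
    rw [show k + 1 + 1 = k + 2 from rfl, c1, c2, map_mul, map_mul]
    rcases c3 with ⟨c3, c4⟩ | ⟨c3, c4⟩
    · rw [c4, sub_self, map_zero]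
      have c5 : R (k + 1) = R k ∨ L (k + 1) = L k := (hs k).symm
      ring
    · rw [c4, sub_self, map_zero]
      ring
  have hAn : A n = A 0 := by
    rw [hA]
    simp only [zero_add]
    rw [hL0, hR0, hL1, hR1]
  have hsum : (1 - (starRingEnd ℂ) q) * ∑ k ∈ range n, A k = ∑ k ∈ B, (A (k + 1) - (starRingEnd ℂ) q * A k) := by
    have b1 : ∑ k ∈ range n, A (k + 1) = ∑ k ∈ range n, A k := by
      have g1 := Finset.sum_range_succ A n
      have g2 := Finset.sum_range_succ' A n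
      rw [g1, hAn] at g2
      exact (add_right_cancel g2).symm
    have b2 : (1 - (starRingEnd ℂ) q) * ∑ k ∈ range n, A k = ∑ k ∈ range n, (A (k + 1) - (starRingEnd ℂ) q * A k) := by
      rw [Finset.sum_sub_distrib, b1, ← Finset.mul_sum]
      ring
    rw [b2, hB]
    symm
    apply Finset.sum_subset (Finset.filter_subset _ _)
    intro j hj hj2
    rw [Finset.mem_filter, not_and, not_not] at hj2
    rw [hAin j (hj2 hj), sub_self]
  have hAsum : ‖∑ k ∈ range n, A k‖ ≤ 2 * (M * β) := by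
    have b1 : ‖(1 - (starRingEnd ℂ) q) * ∑ k ∈ range n, A k‖ ≤ M * β := by
      rw [hsum, hβ, Finset.mul_sum]
      refine (norm_sum_le _ _).trans (Finset.sum_le_sum fun k hk => ?_)
      have hkn : k < n := by
        rw [hB] at hk
        exact Finset.mem_range.1 (Finset.mem_filter.1 hk).1
      refine (norm_sub_le _ _).trans ?_
      rw [norm_mul, RCLike.norm_conj, mul_add]
      refine add_le_add (hAk (k + 1) (by omega)) ?_
      have b2 := mul_le_mul hq (hAk k (by omega)) (norm_nonneg _) zero_le_one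
      linarith
    have b3 : ‖1 - (starRingEnd ℂ) q‖ = ‖1 - q‖ := by
      have : (1 : ℂ) - (starRingEnd ℂ) q = (starRingEnd ℂ) (1 - q) := by rw [map_sub, map_one]
      rw [this, RCLike.norm_conj]
    rw [norm_mul, b3] at b1
    have b4 := mul_le_mul_of_nonneg_right hq1 (norm_nonneg (∑ k ∈ range n, A k))
    linarith
  have hfj : ∑ k ∈ range n, fj (L k) (R k) (L (k + 1)) (R (k + 1)) = (∑ k ∈ range n, A k).im := by
    have b1 : ∀ k, fj (L k) (R k) (L (k + 1)) (R (k + 1)) =
        (A k).im + (((R 0 * (starRingEnd ℂ) (L (k + 1))).im + (L 0 * (starRingEnd ℂ) (R (k + 1))).im) -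
          ((R 0 * (starRingEnd ℂ) (L k)).im + (L 0 * (starRingEnd ℂ) (R k)).im)) := by
      intro k
      rw [hA]
      unfold fj
      simp only [map_sub, mul_sub, sub_mul, add_im, sub_im]
      ring
    simp only [b1]
    rw [Finset.sum_add_distrib, Finset.sum_range_sub (fun k => (R 0 * (starRingEnd ℂ) (L k)).im + (L 0 * (starRingEnd ℂ) (R k)).im),
      hL0, hR0, sub_self, add_zero, Complex.im_sum]
  rw [hfj, ← hE]
  refine (Complex.abs_im_le_norm _).trans (hAsum.trans ?_)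
  rw [hM]
  have f1 : 2 * Real.sqrt E + β ≤ (N + 3) * Real.sqrt E := by linarith
  have f2 : (2 * Real.sqrt E + β) * β ≤ ((N + 3) * Real.sqrt E) * ((N + 1) * Real.sqrt E) :=
    mul_le_mul f1 hβ3 hβ0 (by positivity)
  have f3 : ((N + 3) * Real.sqrt E) * ((N + 1) * Real.sqrt E) = (N + 3) * (N + 1) * E := by
    calc ((N + 3) * Real.sqrt E) * ((N + 1) * Real.sqrt E) = (N + 3) * (N + 1) * Real.sqrt E ^ 2 := by ring
      _ = (N + 3) * (N + 1) * E := by rw [hsE2]
  rw [f3] at f2
  nlinarith [mul_nonneg (mul_nonneg hN0 (by linarith : (0:ℝ) ≤ N + 1)) hE0]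

end seq

end Pool.Agent.Helper85.EV4
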